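import Pool.Agent.Helper775.Sym.Stmt

/-!
# Centrally symmetric tight substantial embeddings of `S^k × S^k`: `N ≤ 2 k + 2`

Positive answer to Q1, for all `k ≥ 1`. The definitions `TightMap`, `CechTightMap`, `Substantial` are in
`Pool/Agent/Helper775/Tight/SingDefs.lean`, `CentrallySymmetric` is in
`Pool/Agent/Helper775/Sym/Final.lean`, `SphereProd` in `Pool/Agent/Helper775/Sym/Stmt.lean`.

Idea: let `P_z` be the top set of `⟨z, f⟩`, `G = {(x, z) : x ∈ P_z}` over the sphere `S^{N-1}` and
`H = {(x, y, z) : x ∈ P_z, y ∈ P_{-z}}` with the free involution `(x, y, z) ↦ (y, x, -z)`. If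
`N ≥ 2 k + 3`, then the cohomology of `H` in degrees `≤ 2 k` comes from the two projections to `G`
and from norm classes; since `S^k × S^k` embeds in `ℝ^{2k+1}` there is an equivariant map
`H → S^{2k}`, and a descending argument along the equivariant resolution of `S^{2k}` gives a
contradiction.
-/

namespace Pool.Agent.Results.MP_b873ea_gt.SymmetricTightBound

open Pool.Agent.Helper775.Tight

/-- Let `k ≥ 1` and let `f : S^k × S^k → ℝ^N` be a continuous injective substantial map which is tight
(for singular homology mod 2, or for Čech theory mod 2) and whose image is centrally symmetric. Then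
`N ≤ 2 k + 2`. -/
theorem result {k N : ℕ} (hk : 1 ≤ k) (f : SphereProd k → EuclideanSpace ℝ (Fin N))
    (hf : Continuous f) (hinj : Function.Injective f) (hs : Substantial f)
    (ht : TightMap f ∨ CechTightMap f) (hc : CentrallySymmetric f) : N ≤ 2 * k + 2 :=
  final_stmt hk f hf hinj hs ht hc

end Pool.Agent.Results.MP_b873ea_gt.SymmetricTightBound
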