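import Pool.Agent.Results.MP_22bcea_gt.SymmetricTightTori

/-!
The case `k = 1` of the codimension bound for centrally symmetric tight embeddings of
`S^k × S^k`: a substantial, centrally symmetric, 0-tight topological embedding of the torus into
Euclidean `N`-space has `N ≤ 4 = 2 k + 2`.
-/

namespace Pool.Agent.Results.MP_b873ea_gt.TorusCase

open Set Topology

theorem result {N : ℕ} (f : Circle × Circle → EuclideanSpace ℝ (Fin N))
    (hf : Continuous f) (hinj : Function.Injective f)
    (htight : ∀ (u : EuclideanSpace ℝ (Fin N)) (t : ℝ), u ≠ 0 →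
      IsPreconnected (f ⁻¹' {x | t ≤ inner ℝ u x}))
    (hsub : affineSpan ℝ (range f) = ⊤)
    (c : EuclideanSpace ℝ (Fin N))
    (hsym : ∀ x ∈ range f, (2 : ℝ) • c - x ∈ range f) : N ≤ 4 := by
  obtain ⟨W, hW, hW'⟩ := MP_22bcea_gt.SymmetricTightTori.result f hf
    (fun p => ⟨univ, Filter.univ_mem, hinj.injOn⟩) htight c hsym
  have h1 : affineSpan ℝ (range f) ≤ AffineSubspace.mk' c W := by
    rw [affineSpan_le]
    intro x hx
    rw [SetLike.mem_coe, AffineSubspace.mem_mk']
    exact hW' x hx
  rw [hsub, top_le_iff] at h1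
  have h2 : W = ⊤ := by
    have := congrArg AffineSubspace.direction h1
    rw [AffineSubspace.direction_mk', AffineSubspace.direction_top] at this
    exact this
  rw [h2, finrank_top, finrank_euclideanSpace_fin] at hW
  exact hW

end Pool.Agent.Results.MP_b873ea_gt.TorusCase
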